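import Pool.Agent.V1172.PW.Eng
import Pool.Agent.Results.MP_1f047c_nt.TuplesPowerSaving

/-!
# Singular matrices of logarithms: all tuples of integers in shrinking residue classes

Let `θ_1, ..., θ_r` be distinct algebraic numbers and `k ≥ 1`. There is `c > 0`, depending on `θ`, `k`, `d`, `m` only, such
that for every prime `p` and `σ > 0`, for all vectors `α` of `p`-adic integers outside a set of Hausdorff dimension at most
`(k - c) / σ` (the space `ℤ_p ^ k` has dimension `k`, so exponents `σ < 1` are allowed) and all large `T`, ALL tuples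
`x = (x_1, ..., x_k)` of integers in `[2, T]` with `|x_i - α_i|_p ≤ T ^ (-σ)` for all `i`, that is, in the residue class of
`α` modulo `p ^ f`, `p ^ f ≥ T ^ σ`, have the following property: for every choice of the logarithms `l` of the `k r`
numbers `x_i + θ_j`, these are linearly independent over `K` modulo `V`, and Q1 holds over `K` for the space `V + K l`.
This holds for countably many pairs `(K, V)` at once, where `K` is a number field of degree at most `d` and `V` a `K`-space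
of dimension at most `m` for which Q1 holds over `K`.

The proof combines the power saving of the starting result `TuplesPowerSaving` with a covering argument in `ℤ_p ^ k`.
-/

set_option autoImplicit false

open Module MeasureTheory

namespace Pool.Agent.Results.MP_1f047c_nt.TuplesInResidueClasses

/-- Every singular square matrix, of any size, with entries in the `K`-space `V` satisfies the conclusion of Q1 over
`K`. -/
def Q1Holds {K : IntermediateField ℚ ℂ} (V : Submodule K ℂ) : Prop :=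
  ∀ N : ℕ, 1 ≤ N → ∀ M : Matrix (Fin N) (Fin N) ℂ, (∀ i j, M i j ∈ V) → M.det = 0 →
    ∃ w v : Fin N → K, w ≠ 0 ∧ v ≠ 0 ∧ ∑ i, ∑ j, (w i : ℂ) * M i j * (v j : ℂ) = 0

/-- The numbers `l_p` are `K`-linearly independent modulo `V`, and Q1 holds for the space generated by `V` and the
`l_p`. -/
def Extends {K : IntermediateField ℚ ℂ} (V : Submodule K ℂ) {k r : ℕ} (l : Fin k × Fin r → ℂ) : Prop :=
  finrank K (V ⊔ Submodule.span K (Set.range l) : Submodule K ℂ) = finrank K V + k * r ∧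
    Q1Holds (V ⊔ Submodule.span K (Set.range l))

theorem result {r : ℕ} (θ : Fin r → ℂ) (hθ : ∀ j, IsAlgebraic ℚ (θ j)) (hinj : Function.Injective θ) (k d m : ℕ)
    (hk : 1 ≤ k) :
    ∃ c : ℝ, 0 < c ∧ c ≤ k ∧ ∀ (K : ℕ → IntermediateField ℚ ℂ) (V : ∀ s, Submodule (K s) ℂ),
      (∀ s, FiniteDimensional ℚ (K s) ∧ finrank ℚ (K s) ≤ d) →
      (∀ s, Module.Finite (K s) (V s) ∧ finrank (K s) (V s) ≤ m ∧
        (finrank (K s) (V s) ≤ 1 ∨ Q1Holds (V s))) →
      ∀ (p : ℕ) [Fact p.Prime] (σ : ℝ), 0 < σ →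
      ∃ E : Set (Fin k → ℤ_[p]), dimH E ≤ ENNReal.ofReal (((k : ℝ) - c) / σ) ∧
        ∀ α : Fin k → ℤ_[p], α ∉ E → ∀ s : ℕ, ∃ T₀ : ℝ, ∀ T : ℝ, T₀ ≤ T → ∀ x : Fin k → ℕ,
          (∀ i, 2 ≤ x i ∧ (x i : ℝ) ≤ T ∧ ‖(x i : ℤ_[p]) - α i‖ ≤ T ^ (-σ)) →
          ∀ l : Fin k × Fin r → ℂ, (∀ q, Complex.exp (l q) = x q.1 + θ q.2) → Extends (V s) l := by
  obtain ⟨c, hc, C, hC⟩ := TuplesPowerSaving.result θ hθ hinj k d m
  have hk1 : (1 : ℝ) ≤ k := by exact_mod_cast hk
  refine ⟨min c k, lt_min hc (by linarith), min_le_right _ _, fun K V hK hV p hp σ hσ => ?_⟩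
  have hs : (0 : ℝ) ≤ (k : ℝ) - min c k := by linarith [min_le_right c (k : ℝ)]
  obtain ⟨E, hE, h⟩ := Pool.Agent.V1172.PW.family p (k := k) (P := Fin k → ℕ) (fun x i => (x i : ℤ))
    (fun s : ℕ => {x : Fin k → ℕ | (∀ i, 2 ≤ x i) ∧ ∃ l : Fin k × Fin r → ℂ,
      (∀ q, Complex.exp (l q) = x q.1 + θ q.2) ∧ ¬ Extends (V s) l}) hs (by
      intro s ε hε
      refine ⟨|C|, fun X hX => ?_⟩
      have hfl : 1 ≤ ⌊X⌋₊ := Nat.le_floor (by exact_mod_cast hX)
      obtain ⟨hfin, hle⟩ := hC (K s) (hK s).1 (hK s).2 (V s) (hV s).1 (hV s).2.1 (hV s).2.2 ⌊X⌋₊ hfl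
      have hT1 : (1 : ℝ) ≤ (⌊X⌋₊ : ℕ) := by exact_mod_cast hfl
      have hsub : {x : Fin k → ℕ | (∀ i, |(((x i : ℤ)) : ℝ)| ≤ X) ∧ x ∈ {x : Fin k → ℕ | (∀ i, 2 ≤ x i) ∧
          ∃ l : Fin k × Fin r → ℂ, (∀ q, Complex.exp (l q) = x q.1 + θ q.2) ∧ ¬ Extends (V s) l}} ⊆
          TuplesPowerSaving.Exceptional (V s) θ ⌊X⌋₊ := by
        rintro x ⟨h1, h2, h3⟩
        refine ⟨fun i => ⟨h2 i, Nat.le_floor ?_⟩, h3⟩
        have h4 := h1 i
        rw [Int.cast_natCast, Nat.abs_cast] at h4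
        exact h4
      refine ⟨hfin.subset hsub, ?_⟩
      refine ((Nat.cast_le (α := ℝ)).2 (Set.ncard_le_ncard hsub hfin)).trans (hle.trans ?_)
      refine mul_le_mul (le_abs_self C) ?_ (by positivity) (abs_nonneg C)
      calc ((⌊X⌋₊ : ℕ) : ℝ) ^ ((k : ℝ) - c) ≤ ((⌊X⌋₊ : ℕ) : ℝ) ^ ((k : ℝ) - min c k + ε) :=
            Real.rpow_le_rpow_of_exponent_le hT1 (by linarith [min_le_left c (k : ℝ)])
        _ ≤ X ^ ((k : ℝ) - min c k + ε) :=
            Real.rpow_le_rpow (Nat.cast_nonneg _) (Nat.floor_le (by linarith)) (by linarith))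
    hσ
  refine ⟨E, hE, fun α hα s => ?_⟩
  obtain ⟨T₀, hT⟩ := h α hα s
  refine ⟨T₀, fun T hT1 x hx l hl => ?_⟩
  by_contra hcon
  refine hT T hT1 x (fun i => ⟨?_, ?_⟩) ⟨fun i => (hx i).1, l, hl, hcon⟩
  · rw [Int.cast_natCast, Nat.abs_cast]
    exact (hx i).2.1
  · rw [Int.cast_natCast]
    exact (hx i).2.2

end Pool.Agent.Results.MP_1f047c_nt.TuplesInResidueClasses
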