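import Pool.Agent.Results.MP_1f047c_nt.TuplesPowerSaving
import Pool.Agent.V11326.WT
import Pool.Agent.V11326.WI

/-!
# Singular matrices of logarithms of ALL tuples of integers in boxes around the points `v_n α`, for almost all `α`

Let `θ_1, ..., θ_r` be distinct algebraic numbers and `k ≥ 1`. For every real vector `α ∈ ℝ ^ k` outside a set of small
Hausdorff dimension (and of measure zero, if the side `v_n ^ η` of the boxes is a small power of `v_n`) and all large `n`,
ALL tuples `x = (x_1, ..., x_k)` of integers `≥ 2` with `|x_i - α_i v_n| ≤ v_n ^ η` for all `i` have the following property: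
for every choice of the logarithms `l` of the `k r` numbers `x_i + θ_j`, these are linearly independent over `K` modulo `V`,
and Q1 holds over `K` for the space `V + K l`: every singular square matrix of any size with entries in it has a
`K`-rational zero `(w, v)`. This holds for given countably many sequences `(K_{s,n}, V_{s,n})_n` of number fields of degree
at most `d` and `K_{s,n}`-spaces of dimension at most `m` for which Q1 holds over `K_{s,n}` (for instance of dimension at
most one); the bound for the dimension depends on `θ`, `k`, `d`, `m` only.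

The proof combines the power saving of the starting result `TuplesPowerSaving` with a covering argument in `ℝ ^ k`.
-/

set_option autoImplicit false

open Module MeasureTheory

namespace Pool.Agent.Results.MP_1f047c_nt.TuplesInWindows

/-- The exponent of convergence of the sequence `v` is at most `τ`: the sum of the `v_n ^ (-p)` converges for all
`p > τ`. -/
def ExpLe (v : ℕ → ℝ) (τ : ℝ) : Prop := ∀ p : ℝ, τ < p → Summable fun n => (v n) ^ (-p)

/-- Every singular square matrix, of any size, with entries in the `K`-space `V` satisfies the conclusion of Q1 over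
`K`. -/
def Q1Holds {K : IntermediateField ℚ ℂ} (V : Submodule K ℂ) : Prop :=
  ∀ N : ℕ, 1 ≤ N → ∀ M : Matrix (Fin N) (Fin N) ℂ, (∀ i j, M i j ∈ V) → M.det = 0 →
    ∃ w v : Fin N → K, w ≠ 0 ∧ v ≠ 0 ∧ ∑ i, ∑ j, (w i : ℂ) * M i j * (v j : ℂ) = 0

/-- The numbers `l_p` are `K`-linearly independent modulo `V`, and Q1 holds for the space generated by `V` and the
`l_p`. -/
def Extends {K : IntermediateField ℚ ℂ} (V : Submodule K ℂ) {k r : ℕ} (l : Fin k × Fin r → ℂ) : Prop :=
  finrank K (V ⊔ Submodule.span K (Set.range l) : Submodule K ℂ) = finrank K V + k * r ∧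
    Q1Holds (V ⊔ Submodule.span K (Set.range l))

theorem result {r : ℕ} (θ : Fin r → ℂ) (hθ : ∀ j, IsAlgebraic ℚ (θ j)) (hinj : Function.Injective θ) (k d m : ℕ)
    (hk : 1 ≤ k) :
    ∃ c : ℝ, 0 < c ∧ c ≤ k ∧ ∀ (K : ℕ → ℕ → IntermediateField ℚ ℂ) (V : ∀ s n, Submodule (K s n) ℂ),
      (∀ s n, FiniteDimensional ℚ (K s n) ∧ finrank ℚ (K s n) ≤ d) →
      (∀ s n, Module.Finite (K s n) (V s n) ∧ finrank (K s n) (V s n) ≤ m ∧
        (finrank (K s n) (V s n) ≤ 1 ∨ Q1Holds (V s n))) →
      ∀ (v : ℕ → ℝ) (τ η : ℝ), (∀ n, 1 ≤ v n) → 0 ≤ τ → ExpLe v τ → η < 1 →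
      ∃ F : Set (Fin k → ℝ), dimH F ≤ ENNReal.ofReal (((k : ℝ) - c + τ) / (1 - η)) ∧
        (τ + k * η < c → volume F = 0) ∧
        ∀ α : Fin k → ℝ, α ∉ F → ∀ s : ℕ, ∃ n₀ : ℕ, ∀ n : ℕ, n₀ ≤ n → ∀ x : Fin k → ℕ, (∀ i, 2 ≤ x i) →
          (∀ i, |(x i : ℝ) - α i * v n| ≤ (v n) ^ η) →
          ∀ l : Fin k × Fin r → ℂ, (∀ p, Complex.exp (l p) = x p.1 + θ p.2) → Extends (V s n) l := by
  obtain ⟨c, hc, C, hC⟩ := TuplesPowerSaving.result θ hθ hinj k d m
  have hk1 : (1 : ℝ) ≤ k := by exact_mod_cast hk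
  refine ⟨min c k, lt_min hc (by linarith), min_le_right _ _, fun K V hK hV v τ η hv hτ hvτ hη => ?_⟩
  obtain ⟨F, hF, h⟩ := Pool.Agent.V11326.WT.tuple_windows (k := k) (c := min c k) (min_le_right _ _)
    (fun s n => {x : Fin k → ℕ | (∀ i, 2 ≤ x i) ∧ ∃ l : Fin k × Fin r → ℂ,
      (∀ p, Complex.exp (l p) = x p.1 + θ p.2) ∧ ¬ Extends (V s n) l}) (fun _ => |C|) (by
      intro s n T hT
      obtain ⟨hfin, hle⟩ := hC (K s n) (hK s n).1 (hK s n).2 (V s n) (hV s n).1 (hV s n).2.1 (hV s n).2.2 T hT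
      have hT1 : (1 : ℝ) ≤ T := by exact_mod_cast hT
      have hsub : {x : Fin k → ℕ | x ∈ {x : Fin k → ℕ | (∀ i, 2 ≤ x i) ∧ ∃ l : Fin k × Fin r → ℂ,
          (∀ p, Complex.exp (l p) = x p.1 + θ p.2) ∧ ¬ Extends (V s n) l} ∧ ∀ i, x i ≤ T} ⊆
          TuplesPowerSaving.Exceptional (V s n) θ T := by
        rintro x ⟨⟨h1, h2⟩, h3⟩
        exact ⟨fun i => ⟨h1 i, h3 i⟩, h2⟩
      refine ⟨hfin.subset hsub, ?_⟩
      refine ((Nat.cast_le (α := ℝ)).2 (Set.ncard_le_ncard hsub hfin)).trans (hle.trans ?_)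
      refine mul_le_mul (le_abs_self C) ?_ (by positivity) (abs_nonneg C)
      exact Real.rpow_le_rpow_of_exponent_le hT1 (by linarith [min_le_left c (k : ℝ)]))
    hv hτ hvτ hη
  refine ⟨F, hF, fun hcη => ?_, fun α hα s => ?_⟩
  · have hcard : (Fintype.card (Fin k) : ℝ) = k := by rw [Fintype.card_fin]
    exact Pool.Agent.V11326.WI.null (c := min c k) (by rw [hcard]; exact min_le_right _ _) hτ hη (by rw [hcard]; exact hF)
      (by rw [hcard]; exact hcη)
  · obtain ⟨n₀, hn⟩ := h α hα s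
    refine ⟨n₀, fun n hn1 x hx2 hx l hl => ?_⟩
    by_contra hcon
    exact hn n hn1 x hx ⟨hx2, l, hl, hcon⟩

end Pool.Agent.Results.MP_1f047c_nt.TuplesInWindows
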