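import Pool.Agent.Results.MP_1f047c_nt.TuplesPowerSaving
import Pool.Agent.H107.MetricFam
import Pool.Agent.H2N.NearSpace

/-!
# Singular matrices of logarithms of ALL tuples of integers near almost every direction

Let `θ_1, ..., θ_r` be distinct algebraic numbers and `k ≥ 1`, `d ≥ 1`. There is `c > 0` such that for almost every
direction `z ∈ ℝ ^ k`, all `σ > (k + 1 - c) / k` and ALL number fields `K` of degree at most `d` the following holds for ALL
`(k + 1)`-tuples `x` of integers `≥ 2`, except for finitely many, with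
`|x_i / x_{k + 1} - z_i| ≤ (max x_j) ^ (-σ)` for `i = 1, …, k`: for every choice of the logarithms `l` of the
`(k + 1) r` numbers `x_i + θ_j`, the numbers `1` and `l` are linearly independent over `K`, and every singular square matrix
of any size with entries in `K + K l` has a `K`-rational zero `(w, v)`, as Q1 predicts. Since `c > 0`, exponents
`σ < (k + 1) / k` are allowed: by Dirichlet's theorem there are infinitely many such tuples near every `z` with positive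
coordinates. The same holds for all members of a given sequence of spaces `V` over such fields for which Q1 holds, in the
place of `K`, and for maps of the tuples to metric spaces.
-/

set_option autoImplicit false

open Module MeasureTheory

namespace Pool.Agent.Results.MP_1f047c_nt.TuplesNearDirections

open TuplesPowerSaving (Q1Holds Extends)

/-- the largest entry of the tuple -/
def top {n : ℕ} (x : Fin n → ℕ) : ℕ := Finset.univ.sup x

/-- For all but finitely many of the `n`-tuples `x ∈ J` of integers `≥ 2` and every choice of the logarithms `l` of the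
numbers `x_i + θ_j`: these are `K`-linearly independent modulo `V`, and Q1 holds over `K` for `V + K l`. -/
def AllIn {n r : ℕ} (θ : Fin r → ℂ) {K : IntermediateField ℚ ℂ} (V : Submodule K ℂ) (J : Set (Fin n → ℕ)) : Prop :=
  ∃ F : Set (Fin n → ℕ), F.Finite ∧ ∀ x ∈ J, x ∉ F → (∀ i, 2 ≤ x i) → ∀ l : Fin n × Fin r → ℂ,
    (∀ p, Complex.exp (l p) = x p.1 + θ p.2) → Extends V l

/-- the exceptional tuples -/
def Bad {n r : ℕ} (θ : Fin r → ℂ) {K : IntermediateField ℚ ℂ} (V : Submodule K ℂ) : Set (Fin n → ℕ) :=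
  {x | (∀ i, 2 ≤ x i) ∧ ∃ l : Fin n × Fin r → ℂ, (∀ p, Complex.exp (l p) = x p.1 + θ p.2) ∧ ¬ Extends V l}

theorem allIn_of {n r : ℕ} {θ : Fin r → ℂ} {K : IntermediateField ℚ ℂ} {V : Submodule K ℂ} {J : Set (Fin n → ℕ)}
    (h : {x | x ∈ Bad θ V ∧ x ∈ J}.Finite) : AllIn θ V J := by
  refine ⟨_, h, fun x hJ hF hx l hl => ?_⟩
  by_contra hcon
  exact hF ⟨⟨hx, l, hl, hcon⟩, hJ⟩

/-- the height -/
noncomputable def ht {n : ℕ} (x : Fin n → ℕ) : ℝ := max 1 (top x : ℝ)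

theorem one_le_ht {n : ℕ} (x : Fin n → ℕ) : 1 ≤ ht x := le_max_left _ _

theorem ht_eq {n : ℕ} {x : Fin (n + 1) → ℕ} (hx : ∀ i, 2 ≤ x i) : ht x = top x := by
  refine max_eq_right ?_
  have h1 : x 0 ≤ top x := Finset.le_sup (f := x) (Finset.mem_univ 0)
  have h2 := hx 0
  exact_mod_cast (by omega : 1 ≤ top x)

theorem count {n r : ℕ} (θ : Fin r → ℂ) {K : IntermediateField ℚ ℂ} (V : Submodule K ℂ) {c C : ℝ}
    (h : ∀ T : ℕ, 1 ≤ T → (TuplesPowerSaving.Exceptional V θ T : Set (Fin n → ℕ)).Finite ∧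
      ((TuplesPowerSaving.Exceptional V θ T : Set (Fin n → ℕ)).ncard : ℝ) ≤ C * (T : ℝ) ^ ((n : ℝ) - c))
    {c' : ℝ} (hc : c' ≤ c) (hcn : c' ≤ n) (ε : ℝ) (hε : 0 < ε) :
    ∃ C' : ℝ, ∀ X : ℝ, 1 ≤ X → {x | x ∈ (Bad θ V : Set (Fin n → ℕ)) ∧ ht x ≤ X}.Finite ∧
      ({x | x ∈ (Bad θ V : Set (Fin n → ℕ)) ∧ ht x ≤ X}.ncard : ℝ) ≤ C' * X ^ ((n : ℝ) - c' + ε) := by
  refine ⟨|C|, fun X hX => ?_⟩
  have hX0 : 0 < X := by linarith
  have hfl : 1 ≤ ⌊X⌋₊ := Nat.le_floor (by exact_mod_cast hX)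
  obtain ⟨g1, g2⟩ := h ⌊X⌋₊ hfl
  have hsub : {x | x ∈ (Bad θ V : Set (Fin n → ℕ)) ∧ ht x ≤ X} ⊆ TuplesPowerSaving.Exceptional V θ ⌊X⌋₊ := by
    rintro x ⟨⟨h1, h2⟩, h3⟩
    refine ⟨fun i => ⟨h1 i, Nat.le_floor ?_⟩, h2⟩
    have h4 : x i ≤ top x := Finset.le_sup (f := x) (Finset.mem_univ i)
    have h5 : (x i : ℝ) ≤ (top x : ℝ) := by exact_mod_cast h4
    exact h5.trans ((le_max_right _ _).trans h3)
  refine ⟨g1.subset hsub, ?_⟩
  refine le_trans (by exact_mod_cast Set.ncard_le_ncard hsub g1) (g2.trans ?_)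
  refine mul_le_mul (le_abs_self C) ?_ (by positivity) (abs_nonneg C)
  have hfl1 : (1 : ℝ) ≤ (⌊X⌋₊ : ℝ) := by exact_mod_cast hfl
  calc (⌊X⌋₊ : ℝ) ^ ((n : ℝ) - c) ≤ (⌊X⌋₊ : ℝ) ^ ((n : ℝ) - c') :=
        Real.rpow_le_rpow_of_exponent_le hfl1 (by linarith)
    _ ≤ X ^ ((n : ℝ) - c') := Real.rpow_le_rpow (by positivity) (Nat.floor_le hX0.le) (by linarith)
    _ ≤ X ^ ((n : ℝ) - c' + ε) := Real.rpow_le_rpow_of_exponent_le hX (by linarith)

theorem countable_fields : {K : IntermediateField ℚ ℂ | FiniteDimensional ℚ K}.Countable := by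
  have h0 : {x : ℂ | IsAlgebraic ℚ x}.Countable := Algebraic.countable ℚ ℂ
  refine (h0.image (fun x => IntermediateField.adjoin ℚ {x})).mono ?_
  intro K hK
  have hfd : FiniteDimensional ℚ K := hK
  obtain ⟨α, hα⟩ := Field.exists_primitive_element ℚ K
  refine ⟨(α : ℂ), ?_, ?_⟩
  · have h1 : IsAlgebraic ℚ α := Algebra.IsAlgebraic.isAlgebraic α
    exact h1.algebraMap
  · have h2 := congrArg IntermediateField.lift hα
    exact ((IntermediateField.lift_adjoin_simple ℚ K α).symm.trans h2).trans (IntermediateField.lift_top ℚ K)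

/-- **Theorem.** Let `θ_1, …, θ_r` be distinct algebraic numbers, `k ≥ 1`, `d`, `m ≥ 0`. There is `c` with
`0 < c ≤ k + 1` such that the following holds. `AllIn θ V J` means that for all but finitely many of the tuples `x ∈ J` of
integers `≥ 2`, for every choice of the logarithms `l` of the numbers `x_i + θ_j`, these are `K`-linearly independent modulo
`V`, and Q1 holds over `K` for `V + K l`; and `top x` is the largest entry of `x`.
(1) For almost every `z ∈ ℝ ^ k`, all `σ > (k + 1 - c) / k` and ALL number fields `K` of degree at most `d`: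
`AllIn θ (K 1) J` for the set `J` of the `(k + 1)`-tuples with `|x_i / x_{k + 1} - z_i| ≤ (top x) ^ (-σ)` for all `i ≤ k`.
(2) For every sequence `(K_s, V_s)` of number fields of degree at most `d` and `K_s`-spaces `V_s` of complex numbers of
dimension at most `m`, with `dim V_s ≤ 1` or Q1 true for `V_s` over `K_s`: for almost every `z ∈ ℝ ^ k`, all
`σ > (k + 1 - c) / k` and all `s`: `AllIn θ V_s J` for the same set `J`.
(3) For every such sequence, every map `φ` from the `(k + 1)`-tuples to a metric space `M` and `σ > 0` there is a set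
`E ⊆ M` of Hausdorff dimension at most `(k + 1 - c) / σ` such that for all `z` outside `E` and all `s`: `AllIn θ V_s J` for
the set `J` of the tuples with `dist (φ x, z) ≤ (top x) ^ (-σ)`. -/
theorem result {r : ℕ} (θ : Fin r → ℂ) (hθ : ∀ j, IsAlgebraic ℚ (θ j)) (hinj : Function.Injective θ) (k d m : ℕ)
    (hk : 1 ≤ k) :
    ∃ c : ℝ, 0 < c ∧ c ≤ k + 1 ∧
      (∀ᵐ z : Fin k → ℝ, ∀ σ : ℝ, ((k : ℝ) + 1 - c) / k < σ →
        ∀ K : IntermediateField ℚ ℂ, FiniteDimensional ℚ K → finrank ℚ K ≤ d →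
          AllIn θ (Submodule.span K {(1 : ℂ)})
            {x : Fin (k + 1) → ℕ | ∀ i : Fin k, |(x i.castSucc : ℝ) / x (Fin.last k) - z i| ≤ (top x : ℝ) ^ (-σ)}) ∧
      ∀ (K : ℕ → IntermediateField ℚ ℂ) (V : ∀ s, Submodule (K s) ℂ),
        (∀ s, FiniteDimensional ℚ (K s) ∧ finrank ℚ (K s) ≤ d) →
        (∀ s, Module.Finite (K s) (V s) ∧ finrank (K s) (V s) ≤ m ∧ (finrank (K s) (V s) ≤ 1 ∨ Q1Holds (V s))) →
        (∀ᵐ z : Fin k → ℝ, ∀ σ : ℝ, ((k : ℝ) + 1 - c) / k < σ → ∀ s : ℕ,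
          AllIn θ (V s)
            {x : Fin (k + 1) → ℕ | ∀ i : Fin k, |(x i.castSucc : ℝ) / x (Fin.last k) - z i| ≤ (top x : ℝ) ^ (-σ)}) ∧
        ∀ (M : Type) [MetricSpace M] (φ : (Fin (k + 1) → ℕ) → M) (σ : ℝ), 0 < σ → ∃ E : Set M,
          dimH E ≤ ENNReal.ofReal (((k : ℝ) + 1 - c) / σ) ∧ ∀ z : M, z ∉ E → ∀ s : ℕ,
            AllIn θ (V s) {x | dist (φ x) z ≤ (top x : ℝ) ^ (-σ)} := by
  obtain ⟨c, hc, C, hC⟩ := TuplesPowerSaving.result θ hθ hinj (k + 1) d (m + 1)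
  have hk0 : (0 : ℝ) < k := by exact_mod_cast hk
  have hmin : min c ((k : ℝ) + 1) ≤ ((k + 1 : ℕ) : ℝ) := by
    push_cast
    exact min_le_right _ _
  have hcast : ((k + 1 : ℕ) : ℝ) - min c ((k : ℝ) + 1) = (k : ℝ) + 1 - min c ((k : ℝ) + 1) := by
    push_cast
    ring
  have hs0 : 0 ≤ (k : ℝ) + 1 - min c ((k : ℝ) + 1) := sub_nonneg.2 (min_le_right _ _)
  have hfr : Module.finrank ℝ (Fin k → ℝ) = k := by
    rw [Module.finrank_pi, Fintype.card_fin]
  -- the general statements for a countable family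
  have hcnt : ∀ (J : Type) (K : J → IntermediateField ℚ ℂ) (V : ∀ s, Submodule (K s) ℂ),
      (∀ s, FiniteDimensional ℚ (K s) ∧ finrank ℚ (K s) ≤ d) →
      (∀ s, Module.Finite (K s) (V s) ∧ finrank (K s) (V s) ≤ m + 1 ∧ (finrank (K s) (V s) ≤ 1 ∨ Q1Holds (V s))) →
      ∀ s : J, ∀ ε : ℝ, 0 < ε → ∃ C' : ℝ, ∀ X : ℝ, 1 ≤ X →
        {x | x ∈ (Bad θ (V s) : Set (Fin (k + 1) → ℕ)) ∧ ht x ≤ X}.Finite ∧
        ({x | x ∈ (Bad θ (V s) : Set (Fin (k + 1) → ℕ)) ∧ ht x ≤ X}.ncard : ℝ) ≤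
          C' * X ^ ((k : ℝ) + 1 - min c ((k : ℝ) + 1) + ε) := by
    intro J K V hK hV s ε hε
    have h1 := count (n := k + 1) θ (V s) (fun T hT => hC (K s) (hK s).1 (hK s).2 (V s) (hV s).1 (hV s).2.1
      (hV s).2.2 T hT) (min_le_left c ((k : ℝ) + 1)) hmin ε hε
    rwa [hcast] at h1
  have hae : ∀ (J : Type) [Countable J] (K : J → IntermediateField ℚ ℂ) (V : ∀ s, Submodule (K s) ℂ),
      (∀ s, FiniteDimensional ℚ (K s) ∧ finrank ℚ (K s) ≤ d) →
      (∀ s, Module.Finite (K s) (V s) ∧ finrank (K s) (V s) ≤ m + 1 ∧ (finrank (K s) (V s) ≤ 1 ∨ Q1Holds (V s))) →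
      ∀ᵐ z : Fin k → ℝ, ∀ σ : ℝ, ((k : ℝ) + 1 - min c ((k : ℝ) + 1)) / k < σ → ∀ s : J,
        AllIn θ (V s)
          {x : Fin (k + 1) → ℕ | ∀ i : Fin k, |(x i.castSucc : ℝ) / x (Fin.last k) - z i| ≤ (top x : ℝ) ^ (-σ)} := by
    intro J _ K V hK hV
    have h1 := Pool.Agent.H2N.ae_family_space (volume : Measure (Fin k → ℝ)) (by rw [hfr]; omega)
      (fun x : Fin (k + 1) → ℕ => fun i : Fin k => (x i.castSucc : ℝ) / (x (Fin.last k) : ℝ)) ht one_le_ht
      hs0 (fun s : J => (Bad θ (V s) : Set (Fin (k + 1) → ℕ))) (hcnt J K V hK hV)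
    rw [hfr] at h1
    filter_upwards [h1] with z hz σ hσ s
    refine allIn_of ((hz σ hσ s).subset ?_)
    rintro x ⟨g1, g2⟩
    refine ⟨g1, ?_⟩
    rw [ht_eq g1.1, dist_pi_le_iff (by positivity)]
    exact g2
  refine ⟨min c ((k : ℝ) + 1), lt_min hc (by linarith), min_le_right _ _, ?_, fun K V hK hV => ⟨?_, ?_⟩⟩
  · have hJ : Countable {K : IntermediateField ℚ ℂ // FiniteDimensional ℚ K ∧ finrank ℚ K ≤ d} :=
      (countable_fields.mono fun K hK => hK.1).to_subtype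
    have h1 := hae {K : IntermediateField ℚ ℂ // FiniteDimensional ℚ K ∧ finrank ℚ K ≤ d} (fun s => s.1)
      (fun s => Submodule.span s.1 {(1 : ℂ)}) (fun s => s.2) (fun s => by
        have h2 : finrank s.1 (Submodule.span s.1 {(1 : ℂ)}) = 1 := finrank_span_singleton one_ne_zero
        exact ⟨inferInstance, by omega, Or.inl h2.le⟩)
    filter_upwards [h1] with z hz σ hσ K hK hKd
    exact hz σ hσ ⟨K, hK, hKd⟩
  · exact hae ℕ K V hK fun s => ⟨(hV s).1, (hV s).2.1.trans (Nat.le_succ m), (hV s).2.2⟩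
  · intro M _ φ σ hσ
    obtain ⟨E, hE1, hE2⟩ := Pool.Agent.H107.ME.dim_family φ ht one_le_ht hs0 hσ
      (fun s : ℕ => (Bad θ (V s) : Set (Fin (k + 1) → ℕ)))
      (hcnt ℕ K V hK fun s => ⟨(hV s).1, (hV s).2.1.trans (Nat.le_succ m), (hV s).2.2⟩)
    refine ⟨E, hE1, fun z hz s => allIn_of ((hE2 z hz s).subset ?_)⟩
    rintro x ⟨g1, g2⟩
    refine ⟨g1, ?_⟩
    rw [ht_eq g1.1]
    exact g2

end Pool.Agent.Results.MP_1f047c_nt.TuplesNearDirections
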